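import Mathlib
import Pool.Agent.H12.GJ.Defs

/-!
# Inverse branches of `x ^ 3 - 3 x` and of the maps `g`, `h`
-/

namespace Pool.Agent.H15.GJ

open Set Pool.Agent.H12.GJ

/-- The three inverse branches of `x ^ 3 - 3 x` on `[-2, 2]`. -/
noncomputable def r (i : Fin 3) (u : ℝ) : ℝ :=
  2 * Real.cos (Real.arccos (u / 2) / 3 + (![0, 2 * Real.pi / 3, -(2 * Real.pi / 3)] : Fin 3 → ℝ) i)

lemma r_zero (u : ℝ) : r 0 u = 2 * Real.cos (Real.arccos (u / 2) / 3) := by simp [r]

lemma cos_two_pi_div_three : Real.cos (2 * Real.pi / 3) = -(1 / 2) := by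
  have : 2 * Real.pi / 3 = Real.pi - Real.pi / 3 := by ring
  rw [this, Real.cos_pi_sub, Real.cos_pi_div_three]

lemma sin_two_pi_div_three : Real.sin (2 * Real.pi / 3) = √3 / 2 := by
  have : 2 * Real.pi / 3 = Real.pi - Real.pi / 3 := by ring
  rw [this, Real.sin_pi_sub, Real.sin_pi_div_three]

lemma r_one (u : ℝ) : r 1 u = -Real.cos (Real.arccos (u / 2) / 3) -
    √3 * Real.sin (Real.arccos (u / 2) / 3) := by
  simp only [r, Matrix.cons_val_one, Matrix.cons_val_zero]
  rw [Real.cos_add, cos_two_pi_div_three, sin_two_pi_div_three]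
  ring

lemma r_two (u : ℝ) : r 2 u = -Real.cos (Real.arccos (u / 2) / 3) +
    √3 * Real.sin (Real.arccos (u / 2) / 3) := by
  have h : r 2 u = 2 * Real.cos (Real.arccos (u / 2) / 3 - 2 * Real.pi / 3) := by
    simp [r, sub_eq_add_neg]
  rw [h, Real.cos_sub, cos_two_pi_div_three, sin_two_pi_div_three]
  ring

lemma continuous_r (i : Fin 3) : Continuous (r i) := by
  unfold r
  fun_prop

section

variable {u : ℝ} (h1 : -2 ≤ u) (h2 : u ≤ 2)
include h1 h2

lemma cos_triple : 4 * Real.cos (Real.arccos (u / 2) / 3) ^ 3 -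
    3 * Real.cos (Real.arccos (u / 2) / 3) = u / 2 := by
  rw [← Real.cos_three_mul]
  have : 3 * (Real.arccos (u / 2) / 3) = Real.arccos (u / 2) := by ring
  rw [this, Real.cos_arccos (by linarith) (by linarith)]

lemma factor {R : Type} [CommRing R] [Algebra ℝ R] (x : R) :
    (x - algebraMap ℝ R (r 0 u)) * (x - algebraMap ℝ R (r 1 u)) *
      (x - algebraMap ℝ R (r 2 u)) = x ^ 3 - 3 * x - algebraMap ℝ R u := by
  have hc := cos_triple h1 h2
  have hsq := Real.sin_sq_add_cos_sq (Real.arccos (u / 2) / 3)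
  have h3 : (√3 : ℝ) ^ 2 = 3 := Real.sq_sqrt (by norm_num)
  have e0 := r_zero u
  have e1 := r_one u
  have e2 := r_two u
  generalize r 0 u = a at *
  generalize r 1 u = b at *
  generalize r 2 u = c at *
  generalize Real.cos (Real.arccos (u / 2) / 3) = C at *
  generalize Real.sin (Real.arccos (u / 2) / 3) = S at *
  have s1 : a + b + c = 0 := by rw [e0, e1, e2]; ring
  have s2 : a * b + b * c + a * c = -3 := by
    rw [e0, e1, e2]; linear_combination (-S ^ 2) * h3 - 3 * hsq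
  have s3 : a * b * c = u := by
    rw [e0, e1, e2]; linear_combination (-2 * C * S ^ 2) * h3 + 2 * hc - 6 * C * hsq
  have t1 := congrArg (algebraMap ℝ R) s1
  have t2 := congrArg (algebraMap ℝ R) s2
  have t3 := congrArg (algebraMap ℝ R) s3
  simp only [map_add, map_mul, map_zero, map_neg, map_ofNat] at t1 t2 t3
  linear_combination (-x ^ 2) * t1 + x * t2 - t3

lemma factor' (x : ℝ) : (x - r 0 u) * (x - r 1 u) * (x - r 2 u) = x ^ 3 - 3 * x - u := by
  have := factor h1 h2 x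
  simpa using this

omit h1 h2 in
lemma r_sum (u : ℝ) : r 0 u + r 1 u + r 2 u = 0 := by
  rw [r_zero, r_one, r_two]; ring

omit h1 h2 in
lemma r_sum_sq (u : ℝ) : r 0 u ^ 2 + r 1 u ^ 2 + r 2 u ^ 2 = 6 := by
  have hsq := Real.sin_sq_add_cos_sq (Real.arccos (u / 2) / 3)
  have h3 : (√3 : ℝ) ^ 2 = 3 := Real.sq_sqrt (by norm_num)
  rw [r_zero, r_one, r_two]
  linear_combination (2 * Real.sin (Real.arccos (u / 2) / 3) ^ 2) * h3 + 6 * hsq

lemma r_eq (i : Fin 3) : r i u ^ 3 - 3 * r i u = u := by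
  have h : ∀ x, (x - r 0 u) * (x - r 1 u) * (x - r 2 u) = 0 → x ^ 3 - 3 * x = u := by
    intro x hx
    rw [factor' h1 h2] at hx
    linarith
  fin_cases i <;> (apply h; simp)

omit h1 h2 in
lemma phi_mem (u : ℝ) : 0 ≤ Real.arccos (u / 2) / 3 ∧ Real.arccos (u / 2) / 3 ≤ Real.pi / 3 := by
  have h3 := Real.arccos_nonneg (u / 2)
  have h4 := Real.arccos_le_pi (u / 2)
  constructor <;> linarith

omit h1 h2 in
lemma r_zero_mem (u : ℝ) : 1 ≤ r 0 u ∧ r 0 u ≤ 2 := by
  obtain ⟨h3, h4⟩ := phi_mem u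
  have hpi := Real.pi_pos
  rw [r_zero]
  constructor
  · have := Real.cos_le_cos_of_nonneg_of_le_pi h3 (by linarith) h4
    rw [Real.cos_pi_div_three] at this
    linarith
  · have := Real.cos_le_one (Real.arccos (u / 2) / 3)
    linarith

omit h1 h2 in
lemma r_one_mem (u : ℝ) : -2 ≤ r 1 u ∧ r 1 u ≤ -1 := by
  obtain ⟨h3, h4⟩ := phi_mem u
  have hpi := Real.pi_pos
  have h : r 1 u = 2 * Real.cos (Real.arccos (u / 2) / 3 + 2 * Real.pi / 3) := by simp [r]
  rw [h]
  constructor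
  · have := Real.neg_one_le_cos (Real.arccos (u / 2) / 3 + 2 * Real.pi / 3)
    linarith
  · have := Real.cos_le_cos_of_nonneg_of_le_pi (x := 2 * Real.pi / 3)
      (y := Real.arccos (u / 2) / 3 + 2 * Real.pi / 3) (by linarith) (by linarith) (by linarith)
    rw [cos_two_pi_div_three] at this
    linarith

omit h1 h2 in
lemma r_two_mem (u : ℝ) : -1 ≤ r 2 u ∧ r 2 u ≤ 1 := by
  obtain ⟨h3, h4⟩ := phi_mem u
  have hpi := Real.pi_pos
  have h : r 2 u = 2 * Real.cos (2 * Real.pi / 3 - Real.arccos (u / 2) / 3) := by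
    rw [← Real.cos_neg]
    simp [r, sub_eq_add_neg]
  rw [h]
  constructor
  · have := Real.cos_le_cos_of_nonneg_of_le_pi (x := 2 * Real.pi / 3 - Real.arccos (u / 2) / 3)
      (y := 2 * Real.pi / 3) (by linarith) (by linarith) (by linarith)
    rw [cos_two_pi_div_three] at this
    linarith
  · have := Real.cos_le_cos_of_nonneg_of_le_pi (x := Real.pi / 3)
      (y := 2 * Real.pi / 3 - Real.arccos (u / 2) / 3) (by linarith) (by linarith) (by linarith)
    rw [Real.cos_pi_div_three] at this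
    linarith

omit h1 h2 in
lemma r_mem (i : Fin 3) (u : ℝ) : r i u ∈ Icc (-2 : ℝ) 2 := by
  have e0 := r_zero_mem u
  have e1 := r_one_mem u
  have e2 := r_two_mem u
  fin_cases i
  · exact ⟨by simp; linarith, e0.2⟩
  · exact ⟨e1.1, by simp; linarith⟩
  · exact ⟨by simp; linarith, by simp; linarith⟩

end

/-- The hull of the Julia set of `g`. -/
def I : Set ℝ := Icc (-19 / 10 : ℝ) (3 / 2)

/-- The inverse branches of `g`. -/
noncomputable def psi (i : Fin 3) (y : ℝ) : ℝ := r i (-(y + 572 / 5) / 100)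

/-- The inverse branches of `h`. -/
noncomputable def chi (i : Fin 3) (y : ℝ) : ℝ := r i ((y + 1 / 5) / (17 / 20))

lemma continuous_psi (i : Fin 3) : Continuous (psi i) := by
  unfold psi
  exact (continuous_r i).comp (by fun_prop)

lemma continuous_chi (i : Fin 3) : Continuous (chi i) := by
  unfold chi
  exact (continuous_r i).comp (by fun_prop)

section

variable {y : ℝ} (hy : y ∈ I)
include hy

lemma u_psi : -(1159 / 1000) ≤ -(y + 572 / 5) / 100 ∧ -(y + 572 / 5) / 100 ≤ -(9 / 8) := by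
  obtain ⟨h1, h2⟩ := hy
  constructor <;> linarith

lemma u_chi : -2 ≤ (y + 1 / 5) / (17 / 20) ∧ (y + 1 / 5) / (17 / 20) ≤ 2 := by
  obtain ⟨h1, h2⟩ := hy
  constructor
  · rw [le_div_iff₀ (by norm_num)]; linarith
  · rw [div_le_iff₀ (by norm_num)]; linarith

lemma gr_psi (i : Fin 3) : gr (psi i y) = y := by
  obtain ⟨h1, h2⟩ := u_psi hy
  have := r_eq (u := -(y + 572 / 5) / 100) (by linarith) (by linarith) i
  unfold gr psi
  rw [this]
  ring

lemma hr_chi (i : Fin 3) : hr (chi i y) = y := by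
  obtain ⟨h1, h2⟩ := u_chi hy
  have := r_eq h1 h2 i
  unfold hr chi
  rw [this]
  ring

lemma psi_zero_mem : psi 0 y ∈ Icc (149 / 100 : ℝ) (3 / 2) := by
  obtain ⟨h1, h2⟩ := u_psi hy
  have h3 := r_eq (u := -(y + 572 / 5) / 100) (by linarith) (by linarith) 0
  obtain ⟨h4, h5⟩ := r_zero_mem (-(y + 572 / 5) / 100)
  unfold psi
  generalize -(y + 572 / 5) / 100 = u at *
  generalize r 0 u = x at *
  constructor
  · by_contra h
    push Not at h
    nlinarith [mul_pos (sub_pos.2 h) (sub_pos.2 h), mul_nonneg (sub_nonneg.2 h4) (sub_nonneg.2 h4)]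
  · by_contra h
    push Not at h
    nlinarith [mul_pos (sub_pos.2 h) (sub_pos.2 h)]

lemma psi_one_mem : psi 1 y ∈ Icc (-19 / 10 : ℝ) (-189 / 100) := by
  obtain ⟨h1, h2⟩ := u_psi hy
  have h3 := r_eq (u := -(y + 572 / 5) / 100) (by linarith) (by linarith) 1
  obtain ⟨h4, h5⟩ := r_one_mem (-(y + 572 / 5) / 100)
  unfold psi
  generalize -(y + 572 / 5) / 100 = u at *
  generalize r 1 u = x at *
  constructor
  · by_contra h
    push Not at h
    nlinarith [mul_pos (sub_pos.2 h) (sub_pos.2 h)]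
  · by_contra h
    push Not at h
    nlinarith [mul_pos (sub_pos.2 h) (sub_pos.2 h), mul_nonneg (sub_nonneg.2 h5) (sub_nonneg.2 h5)]

lemma psi_two_mem : psi 2 y ∈ Icc (39 / 100 : ℝ) (41 / 100) := by
  obtain ⟨h1, h2⟩ := u_psi hy
  have h3 := r_eq (u := -(y + 572 / 5) / 100) (by linarith) (by linarith) 2
  obtain ⟨h4, h5⟩ := r_two_mem (-(y + 572 / 5) / 100)
  unfold psi
  generalize -(y + 572 / 5) / 100 = u at *
  generalize r 2 u = x at *
  constructor
  · by_contra h
    push Not at h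
    nlinarith [mul_pos (sub_pos.2 h) (sub_pos.2 h), mul_nonneg (sub_nonneg.2 h4) (sub_nonneg.2 h5)]
  · by_contra h
    push Not at h
    nlinarith [mul_pos (sub_pos.2 h) (sub_pos.2 h), mul_nonneg (sub_nonneg.2 h4) (sub_nonneg.2 h5)]

lemma psi_mem (i : Fin 3) : psi i y ∈ I := by
  unfold I
  fin_cases i
  · obtain ⟨h1, h2⟩ := psi_zero_mem hy
    exact ⟨by simp; linarith, h2⟩
  · obtain ⟨h1, h2⟩ := psi_one_mem hy
    exact ⟨h1, by simp; linarith⟩
  · obtain ⟨h1, h2⟩ := psi_two_mem hy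
    exact ⟨by simp; linarith, by simp; linarith⟩

end

end Pool.Agent.H15.GJ
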