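import Mathlib
import Pool.Agent.H15.GJ.Branch

/-!
# The coding map and the invariant measure of `g`
-/

namespace Pool.Agent.H15.GJ

open Set Pool.Agent.H12.GJ MeasureTheory Filter Topology ENNReal

lemma gr_sub (x x' : ℝ) : gr x - gr x' = -100 * ((x - x') * (x ^ 2 + x * x' + x' ^ 2 - 3)) := by
  unfold gr; ring

lemma psi_contract {y y' : ℝ} (hy : y ∈ I) (hy' : y' ∈ I) (i : Fin 3) :
    |psi i y - psi i y'| ≤ 1 / 2 * |y - y'| := by
  have h := gr_sub (psi i y) (psi i y')
  rw [gr_psi hy, gr_psi hy'] at h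
  have key : 1 ≤ |psi i y ^ 2 + psi i y * psi i y' + psi i y' ^ 2 - 3| := by
    rw [le_abs]
    fin_cases i
    · left
      obtain ⟨h1, h2⟩ := psi_zero_mem hy
      obtain ⟨h3, h4⟩ := psi_zero_mem hy'
      simp only [Fin.zero_eta]
      nlinarith
    · left
      obtain ⟨h1, h2⟩ := psi_one_mem hy
      obtain ⟨h3, h4⟩ := psi_one_mem hy'
      simp only [Fin.mk_one]
      nlinarith
    · right
      obtain ⟨h1, h2⟩ := psi_two_mem hy
      obtain ⟨h3, h4⟩ := psi_two_mem hy'
      simp only [Fin.reduceFinMk]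
      nlinarith
  rw [h, abs_mul, abs_mul]
  have h5 : |(-100 : ℝ)| = 100 := by norm_num
  rw [h5]
  have h6 := abs_nonneg (psi i y - psi i y')
  nlinarith

lemma psi_sep {y y' : ℝ} (hy : y ∈ I) (hy' : y' ∈ I) {i j : Fin 3} (hij : i ≠ j) :
    1 ≤ |psi i y - psi j y'| := by
  obtain ⟨a1, a2⟩ := psi_zero_mem hy
  obtain ⟨a3, a4⟩ := psi_zero_mem hy'
  obtain ⟨b1, b2⟩ := psi_one_mem hy
  obtain ⟨b3, b4⟩ := psi_one_mem hy'
  obtain ⟨c1, c2⟩ := psi_two_mem hy
  obtain ⟨c3, c4⟩ := psi_two_mem hy'
  rw [le_abs]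
  fin_cases i <;> fin_cases j <;> simp at hij ⊢ <;>
    first | (left; linarith) | (right; linarith)

/-- The first ternary digit. -/
noncomputable def dig (t : ℝ) : Fin 3 := if t < 1 / 3 then 0 else if t < 2 / 3 then 1 else 2

lemma measurable_dig : Measurable dig :=
  Measurable.ite measurableSet_Iio measurable_const
    (Measurable.ite measurableSet_Iio measurable_const measurable_const)

/-- The approximations of the coding map. -/
noncomputable def code : ℕ → ℝ → ℝ
  | 0, _ => 0
  | n + 1, t => psi (dig t) (code n (Int.fract (3 * t)))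

lemma measurable_psi_dig {f : ℝ → ℝ} (hf : Measurable f) :
    Measurable fun t => psi (dig t) (f t) := by
  have h : (fun t => psi (dig t) (f t)) = fun t => if t < 1 / 3 then psi 0 (f t) else
      if t < 2 / 3 then psi 1 (f t) else psi 2 (f t) := by
    funext t
    unfold dig
    split_ifs <;> rfl
  rw [h]
  exact Measurable.ite measurableSet_Iio ((continuous_psi 0).measurable.comp hf)
    (Measurable.ite measurableSet_Iio ((continuous_psi 1).measurable.comp hf)
      ((continuous_psi 2).measurable.comp hf))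

lemma measurable_code (n : ℕ) : Measurable (code n) := by
  induction n with
  | zero => exact measurable_const
  | succ n ih =>
    exact measurable_psi_dig (ih.comp (measurable_fract.comp (measurable_const_mul 3)))

lemma code_mem (n : ℕ) (t : ℝ) : code n t ∈ I := by
  induction n generalizing t with
  | zero => unfold I code; norm_num
  | succ n ih => exact psi_mem (ih _) _

lemma code_dist (n : ℕ) (t : ℝ) : dist (code n t) (code (n + 1) t) ≤ 4 * (1 / 2) ^ n := by
  induction n generalizing t with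
  | zero =>
    obtain ⟨h1, h2⟩ := code_mem 0 t
    obtain ⟨h3, h4⟩ := code_mem 1 t
    rw [Real.dist_eq, abs_le]
    constructor <;> norm_num <;> linarith
  | succ n ih =>
    have h := psi_contract (code_mem n (Int.fract (3 * t)))
      (code_mem (n + 1) (Int.fract (3 * t))) (dig t)
    have h2 := ih (Int.fract (3 * t))
    rw [Real.dist_eq] at *
    calc _ ≤ 1 / 2 * |code n (Int.fract (3 * t)) - code (n + 1) (Int.fract (3 * t))| := h
      _ ≤ 1 / 2 * (4 * (1 / 2) ^ n) := by linarith
      _ = 4 * (1 / 2) ^ (n + 1) := by ring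

lemma exists_codeLim (t : ℝ) : ∃ L, Tendsto (fun n => code n t) atTop (𝓝 L) := by
  apply cauchySeq_tendsto_of_complete
  exact cauchySeq_of_le_geometric (1 / 2) 4 (by norm_num) (fun n => code_dist n t)

/-- The coding map. -/
noncomputable def codeLim (t : ℝ) : ℝ := (exists_codeLim t).choose

lemma tendsto_code (t : ℝ) : Tendsto (fun n => code n t) atTop (𝓝 (codeLim t)) :=
  (exists_codeLim t).choose_spec

lemma measurable_codeLim : Measurable codeLim :=
  measurable_of_tendsto_metrizable measurable_code (tendsto_pi_nhds.2 tendsto_code)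

lemma codeLim_mem (t : ℝ) : codeLim t ∈ I :=
  isClosed_Icc.mem_of_tendsto (tendsto_code t) (Eventually.of_forall fun n => code_mem n t)

lemma codeLim_eq (t : ℝ) : codeLim t = psi (dig t) (codeLim (Int.fract (3 * t))) := by
  have h1 : Tendsto (fun n => code (n + 1) t) atTop (𝓝 (codeLim t)) :=
    (tendsto_add_atTop_iff_nat 1).2 (tendsto_code t)
  have h2 : Tendsto (fun n => code (n + 1) t) atTop
      (𝓝 (psi (dig t) (codeLim (Int.fract (3 * t))))) :=
    ((continuous_psi (dig t)).tendsto _).comp (tendsto_code (Int.fract (3 * t)))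
  exact tendsto_nhds_unique h1 h2

lemma gr_codeLim (t : ℝ) : gr (codeLim t) = codeLim (Int.fract (3 * t)) := by
  rw [codeLim_eq t, gr_psi (codeLim_mem _)]

lemma codeLim_mem_Kg (t : ℝ) : codeLim t ∈ Kg := by
  intro n
  induction n generalizing t with
  | zero => exact codeLim_mem t
  | succ n ih =>
    rw [Function.iterate_succ_apply, gr_codeLim]
    exact ih _

/-- The invariant measure of `g`. -/
noncomputable def m : Measure ℝ := (volume.restrict (Ico (0 : ℝ) 1)).map codeLim

instance : IsProbabilityMeasure m := by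
  unfold m
  have : IsProbabilityMeasure (volume.restrict (Ico (0 : ℝ) 1)) := ⟨by simp⟩
  exact Measure.isProbabilityMeasure_map measurable_codeLim.aemeasurable

lemma m_ae : ∀ᵐ x ∂m, x ∈ Kg := by
  have hKg : MeasurableSet Kg := by
    have h : Kg = ⋂ n : ℕ, (gr^[n]) ⁻¹' Icc (-19 / 10 : ℝ) (3 / 2) := by
      ext x; simp [Kg]
    have hc : Continuous gr := by unfold gr; fun_prop
    rw [h]
    exact MeasurableSet.iInter fun n => ((hc.iterate n).measurable measurableSet_Icc)
  unfold m
  rw [ae_map_iff (p := fun x => x ∈ Kg) measurable_codeLim.aemeasurable hKg]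
  exact Eventually.of_forall fun t => codeLim_mem_Kg t

lemma Kg_sub : Kg ⊆ I := fun _ hx => hx 0

lemma m_ae_I : ∀ᵐ x ∂m, x ∈ I := by
  filter_upwards [m_ae] with x hx using Kg_sub hx

lemma volume_affine (c : ℝ) (B : Set ℝ) :
    volume ((fun t : ℝ => 3 * t - c) ⁻¹' B) = (3 : ℝ≥0∞)⁻¹ * volume B := by
  have h : (fun t : ℝ => 3 * t - c) ⁻¹' B = (3 * ·) ⁻¹' ((fun x => x - c) ⁻¹' B) := rfl
  have h2 : volume ((fun x : ℝ => x - c) ⁻¹' B) = volume B := by
    simp only [sub_eq_add_neg]
    exact measure_preimage_add_right volume (-c) B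
  rw [h, Real.volume_preimage_mul_left (by norm_num), h2]
  congr 1
  rw [abs_of_pos (by norm_num), ENNReal.ofReal_inv_of_pos (by norm_num)]
  norm_num

/-- Self-similarity of the invariant measure. -/
lemma m_eq : m = (3 : ℝ≥0∞)⁻¹ • ∑ i : Fin 3, m.map (psi i) := by
  ext A hA
  have hB : ∀ i : Fin 3, MeasurableSet (psi i ⁻¹' A) := fun i => (continuous_psi i).measurable hA
  have hm : ∀ B, MeasurableSet B → m B = volume (codeLim ⁻¹' B ∩ Ico 0 1) := by
    intro B hB
    unfold m
    rw [Measure.map_apply measurable_codeLim hB,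
      Measure.restrict_apply (measurable_codeLim hB)]
  have hpart : ∀ (i : Fin 3), codeLim ⁻¹' A ∩ Ico ((i : ℕ) / 3 : ℝ) (((i : ℕ) + 1) / 3) =
      (fun t : ℝ => 3 * t - (i : ℕ)) ⁻¹' (codeLim ⁻¹' (psi i ⁻¹' A) ∩ Ico 0 1) := by
    intro i
    ext t
    simp only [mem_inter_iff, mem_preimage, mem_Ico]
    have hiff : ((i : ℕ) / 3 : ℝ) ≤ t ∧ t < ((i : ℕ) + 1) / 3 ↔
        0 ≤ 3 * t - (i : ℕ) ∧ 3 * t - (i : ℕ) < 1 := by
      constructor
      · rintro ⟨h1, h2⟩; constructor <;> linarith
      · rintro ⟨h1, h2⟩; constructor <;> linarith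
    rw [← hiff]
    refine and_congr_left fun ht => ?_
    have hf : Int.fract (3 * t) = 3 * t - (i : ℕ) := by
      rw [Int.fract_eq_iff]
      obtain ⟨h3, h4⟩ := hiff.1 ht
      refine ⟨h3, h4, (i : ℕ), ?_⟩
      push_cast
      ring
    have hd : dig t = i := by
      unfold dig
      obtain ⟨h3, h4⟩ := ht
      fin_cases i
      · simp at h3 h4
        rw [if_pos (by linarith)]
        rfl
      · simp at h3 h4
        rw [if_neg (by linarith), if_pos (by linarith)]
        rfl
      · simp at h3 h4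
        rw [if_neg (by linarith), if_neg (by linarith)]
        rfl
    rw [codeLim_eq t, hf, hd]
  have hunion : codeLim ⁻¹' A ∩ Ico 0 1 = (codeLim ⁻¹' A ∩ Ico (0 / 3 : ℝ) ((0 + 1) / 3)) ∪
      ((codeLim ⁻¹' A ∩ Ico (1 / 3 : ℝ) ((1 + 1) / 3)) ∪
        (codeLim ⁻¹' A ∩ Ico (2 / 3 : ℝ) ((2 + 1) / 3))) := by
    rw [← inter_union_distrib_left, ← inter_union_distrib_left]
    congr 1
    ext t
    simp only [mem_Ico, mem_union]
    constructor
    · rintro ⟨h1, h2⟩
      rcases lt_or_ge t (1 / 3) with h3 | h3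
      · left; constructor <;> linarith
      · right
        rcases lt_or_ge t (2 / 3) with h4 | h4
        · left; constructor <;> linarith
        · right; constructor <;> linarith
    · rintro (⟨h1, h2⟩ | ⟨h1, h2⟩ | ⟨h1, h2⟩) <;> constructor <;> linarith
  have hmA : MeasurableSet (codeLim ⁻¹' A) := measurable_codeLim hA
  have hsum : m A = ∑ i : Fin 3, (3 : ℝ≥0∞)⁻¹ * m (psi i ⁻¹' A) := by
    rw [hm A hA, hunion, measure_union, measure_union]
    · rw [Fin.sum_univ_three, ← add_assoc]
      have h0 := hpart 0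
      have h1 := hpart 1
      have h2 := hpart 2
      simp only [Fin.val_zero, Fin.val_one, Fin.val_two, Nat.cast_zero, Nat.cast_one,
        Nat.cast_ofNat] at h0 h1 h2
      rw [h0, h1, h2, volume_affine, volume_affine, volume_affine, hm _ (hB 0), hm _ (hB 1),
        hm _ (hB 2)]
    · rw [Set.disjoint_left]
      rintro t ⟨_, h1, h2⟩ ⟨_, h3, h4⟩
      linarith
    · exact hmA.inter measurableSet_Ico
    · rw [Set.disjoint_left]
      rintro t ⟨_, h1, h2⟩ (⟨_, h3, h4⟩ | ⟨_, h3, h4⟩) <;> linarith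
    · exact (hmA.inter measurableSet_Ico).union (hmA.inter measurableSet_Ico)
  rw [hsum, Measure.smul_apply, Measure.finsetSum_apply, smul_eq_mul, Finset.mul_sum]
  refine Finset.sum_congr rfl fun i _ => ?_
  rw [Measure.map_apply (continuous_psi i).measurable hA]

end Pool.Agent.H15.GJ
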