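import Mathlib
import Pool.Agent.H15.GJ.Code

/-!
# Pull-back identities and absence of atoms
-/

namespace Pool.Agent.H15.GJ

open Set Pool.Agent.H12.GJ MeasureTheory Filter Topology ENNReal Polynomial

/-- The measure on the Julia set of the sequence. -/
noncomputable def m0 : Measure ℝ := (3 : ℝ≥0∞)⁻¹ • ∑ i : Fin 3, m.map (chi i)

lemma three_inv : (3 : ℝ≥0∞)⁻¹ * 3 = 1 := ENNReal.inv_mul_cancel (by norm_num) (by norm_num)

instance : IsProbabilityMeasure m0 := by
  constructor
  unfold m0
  rw [Measure.smul_apply, Measure.finsetSum_apply, smul_eq_mul]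
  have h : ∀ i : Fin 3, (m.map (chi i)) univ = 1 := fun i => by
    rw [Measure.map_apply (continuous_chi i).measurable MeasurableSet.univ]
    simp
  simp only [h]
  simp
  exact three_inv

lemma lintegral_m {F : ℝ → ℝ≥0∞} (hF : Measurable F) :
    ∫⁻ x, F x ∂m = (3 : ℝ≥0∞)⁻¹ * ∑ i : Fin 3, ∫⁻ y, F (psi i y) ∂m := by
  conv_lhs => rw [m_eq]
  rw [lintegral_smul_measure, lintegral_finsetSum_measure, smul_eq_mul]
  congr 1
  refine Finset.sum_congr rfl fun i _ => ?_
  rw [lintegral_map hF (continuous_psi i).measurable]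

lemma lintegral_m0 {F : ℝ → ℝ≥0∞} (hF : Measurable F) :
    ∫⁻ x, F x ∂m0 = (3 : ℝ≥0∞)⁻¹ * ∑ i : Fin 3, ∫⁻ y, F (chi i y) ∂m := by
  unfold m0
  rw [lintegral_smul_measure, lintegral_finsetSum_measure, smul_eq_mul]
  congr 1
  refine Finset.sum_congr rfl fun i _ => ?_
  rw [lintegral_map hF (continuous_chi i).measurable]

lemma integrable_cont {F : ℝ → ℝ} (hF : Continuous F) : Integrable F m := by
  obtain ⟨C, hC⟩ := isCompact_Icc.exists_bound_of_continuousOn (s := I) hF.continuousOn
  refine Integrable.of_bound hF.aestronglyMeasurable C ?_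
  filter_upwards [m_ae_I] with x hx using hC x hx

lemma integral_m {F : ℝ → ℝ} (hF : Continuous F) :
    ∫ x, F x ∂m = 1 / 3 * ∑ i : Fin 3, ∫ y, F (psi i y) ∂m := by
  conv_lhs => rw [m_eq]
  rw [integral_smul_measure, integral_finsetSum_measure]
  · have : ((3 : ℝ≥0∞)⁻¹).toReal = 1 / 3 := by simp
    rw [this, smul_eq_mul]
    congr 1
    refine Finset.sum_congr rfl fun i _ => ?_
    rw [integral_map (continuous_psi i).measurable.aemeasurable hF.aestronglyMeasurable]
  · intro i _
    rw [integrable_map_measure hF.aestronglyMeasurable (continuous_psi i).measurable.aemeasurable]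
    exact integrable_cont (hF.comp (continuous_psi i))

lemma integral_m0 {F : ℝ → ℝ} (hF : Continuous F) :
    ∫ x, F x ∂m0 = 1 / 3 * ∑ i : Fin 3, ∫ y, F (chi i y) ∂m := by
  unfold m0
  rw [integral_smul_measure, integral_finsetSum_measure]
  · have : ((3 : ℝ≥0∞)⁻¹).toReal = 1 / 3 := by simp
    rw [this, smul_eq_mul]
    congr 1
    refine Finset.sum_congr rfl fun i _ => ?_
    rw [integral_map (continuous_chi i).measurable.aemeasurable hF.aestronglyMeasurable]
  · intro i _
    rw [integrable_map_measure hF.aestronglyMeasurable (continuous_chi i).measurable.aemeasurable]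
    exact integrable_cont (hF.comp (continuous_chi i))

lemma continuous_gr : Continuous gr := by unfold gr; fun_prop

lemma continuous_hr : Continuous hr := by unfold hr; fun_prop

section Ident

variable (q : ℝ[X])

lemma pull_one : ∫ x, q.eval (gr x) ∂m = ∫ y, q.eval y ∂m := by
  have hc : Continuous fun x => q.eval (gr x) := q.continuous.comp continuous_gr
  rw [integral_m hc]
  have h : ∀ i : Fin 3, ∫ y, q.eval (gr (psi i y)) ∂m = ∫ y, q.eval y ∂m := fun i => by
    refine integral_congr_ae ?_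
    filter_upwards [m_ae_I] with y hy
    rw [gr_psi hy]
  simp only [h, Finset.sum_const, Finset.card_univ, Fintype.card_fin]
  simp

lemma pull_x : ∫ x, x * q.eval (gr x) ∂m = 0 := by
  have hc : Continuous fun x => x * q.eval (gr x) := by
    have := q.continuous.comp continuous_gr
    exact continuous_id.mul this
  rw [integral_m hc, ← integral_finsetSum]
  · have h : ∫ y, ∑ i : Fin 3, psi i y * q.eval (gr (psi i y)) ∂m = ∫ _, (0 : ℝ) ∂m := by
      refine integral_congr_ae ?_
      filter_upwards [m_ae_I] with y hy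
      simp only [gr_psi hy, ← Finset.sum_mul, Fin.sum_univ_three]
      unfold psi
      rw [r_sum, zero_mul]
    rw [h]
    simp
  · intro i _
    exact integrable_cont (hc.comp (continuous_psi i))

lemma pull_sq : ∫ x, (x ^ 2 - 2) * q.eval (gr x) ∂m = 0 := by
  have hc : Continuous fun x => (x ^ 2 - 2) * q.eval (gr x) := by
    have := q.continuous.comp continuous_gr
    exact ((continuous_id.pow 2).sub continuous_const).mul this
  rw [integral_m hc, ← integral_finsetSum]
  · have h : ∫ y, ∑ i : Fin 3, (psi i y ^ 2 - 2) * q.eval (gr (psi i y)) ∂m = ∫ _, (0 : ℝ) ∂m := by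
      refine integral_congr_ae ?_
      filter_upwards [m_ae_I] with y hy
      simp only [gr_psi hy, ← Finset.sum_mul, Fin.sum_univ_three]
      unfold psi
      have := r_sum_sq (-(y + 572 / 5) / 100)
      have h2 : r 0 (-(y + 572 / 5) / 100) ^ 2 - 2 + (r 1 (-(y + 572 / 5) / 100) ^ 2 - 2) +
        (r 2 (-(y + 572 / 5) / 100) ^ 2 - 2) = 0 := by linarith
      rw [h2, zero_mul]
    rw [h]
    simp
  · intro i _
    exact integrable_cont (hc.comp (continuous_psi i))

lemma pull_one0 : ∫ x, q.eval (hr x) ∂m0 = ∫ y, q.eval y ∂m := by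
  have hc : Continuous fun x => q.eval (hr x) := q.continuous.comp continuous_hr
  rw [integral_m0 hc]
  have h : ∀ i : Fin 3, ∫ y, q.eval (hr (chi i y)) ∂m = ∫ y, q.eval y ∂m := fun i => by
    refine integral_congr_ae ?_
    filter_upwards [m_ae_I] with y hy
    rw [hr_chi hy]
  simp only [h, Finset.sum_const, Finset.card_univ, Fintype.card_fin]
  simp

lemma pull_x0 : ∫ x, x * q.eval (hr x) ∂m0 = 0 := by
  have hc : Continuous fun x => x * q.eval (hr x) := by
    have := q.continuous.comp continuous_hr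
    exact continuous_id.mul this
  rw [integral_m0 hc, ← integral_finsetSum]
  · have h : ∫ y, ∑ i : Fin 3, chi i y * q.eval (hr (chi i y)) ∂m = ∫ _, (0 : ℝ) ∂m := by
      refine integral_congr_ae ?_
      filter_upwards [m_ae_I] with y hy
      simp only [hr_chi hy, ← Finset.sum_mul, Fin.sum_univ_three]
      unfold chi
      rw [r_sum, zero_mul]
    rw [h]
    simp
  · intro i _
    exact integrable_cont (hc.comp (continuous_chi i))

lemma pull_sq0 : ∫ x, (x ^ 2 - 2) * q.eval (hr x) ∂m0 = 0 := by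
  have hc : Continuous fun x => (x ^ 2 - 2) * q.eval (hr x) := by
    have := q.continuous.comp continuous_hr
    exact ((continuous_id.pow 2).sub continuous_const).mul this
  rw [integral_m0 hc, ← integral_finsetSum]
  · have h : ∫ y, ∑ i : Fin 3, (chi i y ^ 2 - 2) * q.eval (hr (chi i y)) ∂m = ∫ _, (0 : ℝ) ∂m := by
      refine integral_congr_ae ?_
      filter_upwards [m_ae_I] with y hy
      simp only [hr_chi hy, ← Finset.sum_mul, Fin.sum_univ_three]
      unfold chi
      have := r_sum_sq ((y + 1 / 5) / (17 / 20))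
      have h2 : r 0 ((y + 1 / 5) / (17 / 20)) ^ 2 - 2 + (r 1 ((y + 1 / 5) / (17 / 20)) ^ 2 - 2) +
        (r 2 ((y + 1 / 5) / (17 / 20)) ^ 2 - 2) = 0 := by linarith
      rw [h2, zero_mul]
    rw [h]
    simp
  · intro i _
    exact integrable_cont (hc.comp (continuous_chi i))

end Ident

lemma m_singleton_le (z : ℝ) : m {z} ≤ (3 : ℝ≥0∞)⁻¹ * m {gr z} := by
  conv_lhs => rw [m_eq]
  rw [Measure.smul_apply, Measure.finsetSum_apply, smul_eq_mul]
  have h1 : ∀ i : Fin 3, (m.map (psi i)) {z} = m (psi i ⁻¹' {z} ∩ I) := by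
    intro i
    rw [Measure.map_apply (continuous_psi i).measurable (measurableSet_singleton z)]
    refine (measure_inter_conull' ?_).symm
    have h2 : m Iᶜ = 0 := m_ae_I
    exact measure_mono_null (fun x hx => hx.2) h2
  simp only [h1]
  have h3 : ∑ i : Fin 3, m (psi i ⁻¹' {z} ∩ I) = m (⋃ i : Fin 3, (psi i ⁻¹' {z} ∩ I)) := by
    rw [measure_iUnion, tsum_fintype]
    · intro i j hij
      rw [Function.onFun, Set.disjoint_left]
      rintro y ⟨hy1, hy⟩ ⟨hy2, _⟩
      have h4 := psi_sep hy hy hij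
      have h5 : psi i y = z := hy1
      have h6 : psi j y = z := hy2
      rw [h5, h6, sub_self, abs_zero] at h4
      linarith
    · intro i
      exact ((continuous_psi i).measurable (measurableSet_singleton z)).inter measurableSet_Icc
  rw [h3]
  gcongr
  intro y hy
  obtain ⟨i, hy1, hy2⟩ := mem_iUnion.1 hy
  have h5 : psi i y = z := hy1
  rw [mem_singleton_iff, ← h5, gr_psi hy2]

lemma m_singleton (z : ℝ) : m {z} = 0 := by
  have h : ∀ (n : ℕ) (z : ℝ), m {z} ≤ ((3 : ℝ≥0∞)⁻¹) ^ n := by
    intro n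
    induction n with
    | zero => intro z; simpa using prob_le_one
    | succ n ih =>
      intro z
      calc m {z} ≤ (3 : ℝ≥0∞)⁻¹ * m {gr z} := m_singleton_le z
        _ ≤ (3 : ℝ≥0∞)⁻¹ * ((3 : ℝ≥0∞)⁻¹) ^ n := by gcongr; exact ih _
        _ = ((3 : ℝ≥0∞)⁻¹) ^ (n + 1) := by rw [pow_succ, mul_comm]
  have h2 : Tendsto (fun n : ℕ => ((3 : ℝ≥0∞)⁻¹) ^ n) atTop (𝓝 0) :=
    ENNReal.tendsto_pow_atTop_nhds_zero_of_lt_one (ENNReal.inv_lt_one.2 (by norm_num))
  exact le_antisymm (ge_of_tendsto' h2 fun n => h n z) zero_le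

instance : NullSingletonClass m := ⟨m_singleton⟩

lemma m0_singleton (z : ℝ) : m0 {z} = 0 := by
  unfold m0
  rw [Measure.smul_apply, Measure.finsetSum_apply, smul_eq_mul]
  have h1 : ∀ i : Fin 3, (m.map (chi i)) {z} = 0 := by
    intro i
    rw [Measure.map_apply (continuous_chi i).measurable (measurableSet_singleton z)]
    have h2 : m Iᶜ = 0 := m_ae_I
    refine measure_mono_null (t := {hr z} ∪ Iᶜ) ?_ ?_
    · intro y hy
      by_cases hyI : y ∈ I
      · left
        have h5 : chi i y = z := hy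
        rw [mem_singleton_iff, ← h5, hr_chi hyI]
      · right; exact hyI
    · rw [measure_union_null_iff]
      exact ⟨m_singleton _, h2⟩
  simp [h1]

instance : NullSingletonClass m0 := ⟨m0_singleton⟩

lemma m0_ae {P : ℝ → Prop} (hP : MeasurableSet {x | P x}) (h : ∀ i, ∀ y ∈ Kg, P (chi i y)) :
    ∀ᵐ x ∂m0, P x := by
  rw [ae_iff]
  have hm : MeasurableSet {x | ¬ P x} := hP.compl
  unfold m0
  rw [Measure.smul_apply, Measure.finsetSum_apply, smul_eq_mul]
  have h1 : ∀ i : Fin 3, (m.map (chi i)) {x | ¬ P x} = 0 := by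
    intro i
    rw [Measure.map_apply (continuous_chi i).measurable hm]
    refine measure_mono_null (t := Kgᶜ) ?_ m_ae
    intro y hy hyK
    exact hy (h i y hyK)
  simp [h1]

end Pool.Agent.H15.GJ
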