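import Mathlib
import Pool.Agent.H15.GJ.Pull
import Pool.Agent.H15.Pot.Energy

/-!
# The logarithmic potential of the invariant measures is constant
-/

namespace Pool.Agent.H15.GJ

open Set Pool.Agent.H12.GJ MeasureTheory Filter Topology ENNReal

/-- The logarithmic kernel. -/
noncomputable def kk (C x y : ℝ) : ℝ≥0∞ := ENNReal.ofReal (Real.log (C / |x - y|))

lemma measurable_kk (C x : ℝ) : Measurable (kk C x) := by
  unfold kk
  exact (Real.measurable_log.comp (measurable_const.div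
    ((measurable_const.sub measurable_id).abs))).ennreal_ofReal

lemma prod_psi {w : ℝ} (hw : w ∈ I) (z : ℝ) :
    (z - psi 0 w) * (z - psi 1 w) * (z - psi 2 w) = (w - gr z) / 100 := by
  obtain ⟨h1, h2⟩ := u_psi hw
  have := factor' (u := -(w + 572 / 5) / 100) (by linarith) (by linarith) z
  unfold psi
  rw [this]
  unfold gr
  ring

lemma prod_chi {w : ℝ} (hw : w ∈ I) (z : ℝ) :
    (z - chi 0 w) * (z - chi 1 w) * (z - chi 2 w) = (hr z - w) / (17 / 20) := by
  obtain ⟨h1, h2⟩ := u_chi hw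
  have := factor' h1 h2 z
  unfold chi
  rw [this]
  unfold hr
  ring

/-- The constant in the functional equation of the potential. -/
noncomputable def c1 : ℝ := 2 * Real.log 4 + Real.log 100

lemma c1_nonneg : 0 ≤ c1 := by
  unfold c1
  have h1 : 0 ≤ Real.log 4 := Real.log_nonneg (by norm_num)
  have h2 : 0 ≤ Real.log 100 := Real.log_nonneg (by norm_num)
  linarith

lemma sum_log_psi {w z : ℝ} (hw : w ∈ I) (hne : w ≠ gr z) :
    ∑ i : Fin 3, Real.log (4 / |z - psi i w|) = c1 + Real.log (4 / |gr z - w|) := by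
  have hprod := prod_psi hw z
  have hne0 : (w - gr z) / 100 ≠ 0 := div_ne_zero (sub_ne_zero.2 hne) (by norm_num)
  rw [← hprod] at hne0
  have h0 : z - psi 0 w ≠ 0 := fun h => hne0 (by rw [h]; ring)
  have h1 : z - psi 1 w ≠ 0 := fun h => hne0 (by rw [h]; ring)
  have h2 : z - psi 2 w ≠ 0 := fun h => hne0 (by rw [h]; ring)
  have hlog : ∀ x : ℝ, x ≠ 0 → Real.log (4 / |x|) = Real.log 4 - Real.log |x| := fun x hx =>
    Real.log_div (by norm_num) (abs_ne_zero.2 hx)
  rw [Fin.sum_univ_three, hlog _ h0, hlog _ h1, hlog _ h2, hlog _ (sub_ne_zero.2 (Ne.symm hne))]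
  have h3 : Real.log |z - psi 0 w| + Real.log |z - psi 1 w| + Real.log |z - psi 2 w| =
      Real.log |gr z - w| - Real.log 100 := by
    rw [← Real.log_mul (abs_ne_zero.2 h0) (abs_ne_zero.2 h1), ← Real.log_mul
      (mul_ne_zero (abs_ne_zero.2 h0) (abs_ne_zero.2 h1)) (abs_ne_zero.2 h2), ← abs_mul, ← abs_mul,
      hprod, abs_div, abs_sub_comm w, Real.log_div (abs_ne_zero.2 (sub_ne_zero.2 (Ne.symm hne)))
      (by norm_num)]
    norm_num
  unfold c1
  linarith

lemma sum_log_chi {C w z : ℝ} (hC : 0 < C) (hw : w ∈ I) (hne : w ≠ hr z) :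
    ∑ i : Fin 3, Real.log (C / |z - chi i w|) =
      (3 * Real.log C + Real.log (17 / 20) - Real.log 4) + Real.log (4 / |hr z - w|) := by
  have hprod := prod_chi hw z
  have hne0 : (hr z - w) / (17 / 20) ≠ 0 := div_ne_zero (sub_ne_zero.2 (Ne.symm hne)) (by norm_num)
  rw [← hprod] at hne0
  have h0 : z - chi 0 w ≠ 0 := fun h => hne0 (by rw [h]; ring)
  have h1 : z - chi 1 w ≠ 0 := fun h => hne0 (by rw [h]; ring)
  have h2 : z - chi 2 w ≠ 0 := fun h => hne0 (by rw [h]; ring)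
  have hlog : ∀ (D : ℝ), 0 < D → ∀ x : ℝ, x ≠ 0 →
      Real.log (D / |x|) = Real.log D - Real.log |x| := fun D hD x hx =>
    Real.log_div hD.ne' (abs_ne_zero.2 hx)
  rw [Fin.sum_univ_three, hlog C hC _ h0, hlog C hC _ h1, hlog C hC _ h2,
    hlog 4 (by norm_num) _ (sub_ne_zero.2 (Ne.symm hne))]
  have h3 : Real.log |z - chi 0 w| + Real.log |z - chi 1 w| + Real.log |z - chi 2 w| =
      Real.log |hr z - w| - Real.log (17 / 20) := by
    rw [← Real.log_mul (abs_ne_zero.2 h0) (abs_ne_zero.2 h1), ← Real.log_mul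
      (mul_ne_zero (abs_ne_zero.2 h0) (abs_ne_zero.2 h1)) (abs_ne_zero.2 h2), ← abs_mul, ← abs_mul,
      hprod, abs_div, Real.log_div (abs_ne_zero.2 (sub_ne_zero.2 (Ne.symm hne)))
      (by norm_num)]
    norm_num
  linarith

lemma log_nonneg_of_mem {x y : ℝ} (hx : x ∈ I) (hy : y ∈ I) : 0 ≤ Real.log (4 / |x - y|) := by
  rcases eq_or_ne (x - y) 0 with h | h
  · rw [h]; simp
  · apply Real.log_nonneg
    rw [le_div_iff₀ (abs_pos.2 h), one_mul, abs_le]
    obtain ⟨h1, h2⟩ := hx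
    obtain ⟨h3, h4⟩ := hy
    constructor <;> linarith

lemma gr_mem_Kg {z : ℝ} (hz : z ∈ Kg) : gr z ∈ Kg := fun n => by
  have := hz (n + 1)
  rwa [Function.iterate_succ_apply] at this

lemma psi_mem_Kg {y : ℝ} (hy : y ∈ Kg) (i : Fin 3) : psi i y ∈ Kg := by
  intro n
  rcases n with _ | n
  · exact psi_mem (Kg_sub hy) i
  · rw [Function.iterate_succ_apply, gr_psi (Kg_sub hy)]
    exact hy n

lemma ae_ne (z : ℝ) : ∀ᵐ w ∂m, w ≠ z := by
  rw [ae_iff]; simp

lemma sum_kk {w z : ℝ} (hz : z ∈ I) (hgz : gr z ∈ I) (hw : w ∈ I) (hne : w ≠ gr z) :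
    ∑ i : Fin 3, kk 4 z (psi i w) = ENNReal.ofReal c1 + kk 4 (gr z) w := by
  unfold kk
  rw [← ENNReal.ofReal_add c1_nonneg (log_nonneg_of_mem hgz hw), ← sum_log_psi hw hne,
    ENNReal.ofReal_sum_of_nonneg]
  intro i _
  exact log_nonneg_of_mem hz (psi_mem hw i)

/-- The potential. -/
noncomputable def V (z : ℝ) : ℝ≥0∞ := ∫⁻ w, kk 4 z w ∂m

lemma V_eq {z : ℝ} (hz : z ∈ I) (hgz : gr z ∈ I) :
    V z = (3 : ℝ≥0∞)⁻¹ * (ENNReal.ofReal c1 + V (gr z)) := by
  unfold V
  rw [lintegral_m (measurable_kk 4 z), ← lintegral_finsetSum]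
  · congr 1
    have h1 : ∫⁻ w, ∑ i : Fin 3, kk 4 z (psi i w) ∂m =
        ∫⁻ w, (ENNReal.ofReal c1 + kk 4 (gr z) w) ∂m := by
      refine lintegral_congr_ae ?_
      filter_upwards [m_ae_I, ae_ne (gr z)] with w hw hne
      exact sum_kk hz hgz hw hne
    rw [h1, lintegral_add_left measurable_const]
    simp
  · intro i _
    exact (measurable_kk 4 z).comp (continuous_psi i).measurable

lemma exists_branch {z : ℝ} (hgz : gr z ∈ I) : ∃ j, z = psi j (gr z) := by
  have h := prod_psi hgz z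
  rw [sub_self, zero_div] at h
  rcases mul_eq_zero.1 h with h | h
  · rcases mul_eq_zero.1 h with h | h
    · exact ⟨0, sub_eq_zero.1 h⟩
    · exact ⟨1, sub_eq_zero.1 h⟩
  · exact ⟨2, sub_eq_zero.1 h⟩

/-- A bound for the potential. -/
noncomputable def BB : ℝ≥0∞ := 3 * ENNReal.ofReal (Real.log 4) + ENNReal.ofReal c1

lemma BB_ne_top : BB ≠ ⊤ := by
  unfold BB
  exact ENNReal.add_ne_top.2 ⟨ENNReal.mul_ne_top (by norm_num) ENNReal.ofReal_ne_top,
    ENNReal.ofReal_ne_top⟩

lemma trunc_bound (M : ℕ) {z : ℝ} (hz : z ∈ Kg) :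
    ∫⁻ w, min (kk 4 z w) M ∂m ≤ (3 : ℝ≥0∞)⁻¹ * (BB + ∫⁻ w, min (kk 4 (gr z) w) M ∂m) := by
  have hm : ∀ x, Measurable fun w => min (kk 4 x w) (M : ℝ≥0∞) := fun x =>
    (measurable_kk 4 x).min measurable_const
  rw [lintegral_m (hm z), ← lintegral_finsetSum]
  · gcongr
    have h1 : BB + ∫⁻ w, min (kk 4 (gr z) w) M ∂m = ∫⁻ w, (BB + min (kk 4 (gr z) w) M) ∂m := by
      rw [lintegral_add_left measurable_const]
      simp
    rw [h1]
    refine lintegral_mono_ae ?_
    obtain ⟨j, hj⟩ := exists_branch (Kg_sub (gr_mem_Kg hz))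
    filter_upwards [m_ae_I, ae_ne (gr z)] with w hw hne
    have hsum := sum_kk (Kg_sub hz) (Kg_sub (gr_mem_Kg hz)) hw hne
    have h2 : ∀ i : Fin 3, min (kk 4 z (psi i w)) (M : ℝ≥0∞) ≤
        ENNReal.ofReal (Real.log 4) +
          if i = j then ENNReal.ofReal c1 + min (kk 4 (gr z) w) M else 0 := by
      intro i
      split_ifs with hij
      · have h3 : kk 4 z (psi i w) ≤ ENNReal.ofReal c1 + kk 4 (gr z) w := by
          rw [← hsum]
          exact Finset.single_le_sum (f := fun i => kk 4 z (psi i w)) (fun _ _ => zero_le)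
            (Finset.mem_univ i)
        calc min (kk 4 z (psi i w)) (M : ℝ≥0∞) ≤ min (ENNReal.ofReal c1 + kk 4 (gr z) w) M :=
              min_le_min_right _ h3
          _ ≤ ENNReal.ofReal c1 + min (kk 4 (gr z) w) M := by
              rcases le_total (kk 4 (gr z) w) M with h4 | h4
              · rw [min_eq_left h4]; exact min_le_left _ _
              · rw [min_eq_right h4]; exact (min_le_right _ _).trans le_add_self
          _ ≤ _ := le_add_self
      · rw [add_zero]
        refine (min_le_left _ _).trans (ENNReal.ofReal_le_ofReal ?_)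
        have h4 := psi_sep (Kg_sub (gr_mem_Kg hz)) hw (Ne.symm hij)
        rw [← hj] at h4
        apply Real.log_le_log (by positivity)
        rw [div_le_iff₀ (by linarith)]
        linarith
    calc ∑ i : Fin 3, min (kk 4 z (psi i w)) (M : ℝ≥0∞) ≤
          ∑ i : Fin 3, (ENNReal.ofReal (Real.log 4) +
            if i = j then ENNReal.ofReal c1 + min (kk 4 (gr z) w) M else 0) :=
          Finset.sum_le_sum fun i _ => h2 i
      _ = BB + min (kk 4 (gr z) w) M := by
          rw [Finset.sum_add_distrib, Finset.sum_ite_eq' Finset.univ j]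
          simp only [Finset.sum_const, Finset.card_univ, Fintype.card_fin, Finset.mem_univ, if_true]
          unfold BB
          rw [nsmul_eq_mul, add_assoc]
          norm_num
  · intro i _
    exact (hm z).comp (continuous_psi i).measurable

lemma V_le {z : ℝ} (hz : z ∈ Kg) : V z ≤ BB := by
  have hM : ∀ (M : ℕ), ∀ z ∈ Kg, ∫⁻ w, min (kk 4 z w) M ∂m ≤ BB := by
    intro M
    set S : ℝ≥0∞ := ⨆ z ∈ Kg, ∫⁻ w, min (kk 4 z w) M ∂m with hS
    have h1 : S ≤ M := by
      refine iSup₂_le fun z _ => ?_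
      calc ∫⁻ w, min (kk 4 z w) M ∂m ≤ ∫⁻ _, (M : ℝ≥0∞) ∂m :=
            lintegral_mono fun w => min_le_right _ _
        _ = M := by simp
    have hStop : S ≠ ⊤ := ne_top_of_le_ne_top (ENNReal.natCast_ne_top M) h1
    have h2 : S ≤ (3 : ℝ≥0∞)⁻¹ * (BB + S) := by
      refine iSup₂_le fun z hz => ?_
      refine (trunc_bound M hz).trans ?_
      gcongr
      exact le_iSup₂ (f := fun z (_ : z ∈ Kg) => ∫⁻ w, min (kk 4 z w) M ∂m) (gr z) (gr_mem_Kg hz)
    have h3 : 3 * S ≤ BB + S := by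
      calc 3 * S ≤ 3 * ((3 : ℝ≥0∞)⁻¹ * (BB + S)) := by gcongr
        _ = BB + S := by
          rw [← mul_assoc, ENNReal.mul_inv_cancel (by norm_num) (by norm_num), one_mul]
    have h4 : 2 * S ≤ BB := by
      have h5 : 2 * S + S ≤ BB + S := by
        calc 2 * S + S = 3 * S := by ring
          _ ≤ _ := h3
      exact (ENNReal.add_le_add_iff_right hStop).1 h5
    have h6 : S ≤ BB := by
      calc S ≤ 2 * S := by
            calc S = 1 * S := (one_mul S).symm
              _ ≤ 2 * S := by gcongr; norm_num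
        _ ≤ BB := h4
    intro z hz
    exact (le_iSup₂ (f := fun z (_ : z ∈ Kg) => ∫⁻ w, min (kk 4 z w) M ∂m) z hz).trans h6
  have h7 : V z = ⨆ M : ℕ, ∫⁻ w, min (kk 4 z w) M ∂m := by
    unfold V
    rw [← lintegral_iSup]
    · refine lintegral_congr fun w => ?_
      apply le_antisymm
      · have h8 : kk 4 z w ≠ ⊤ := ENNReal.ofReal_ne_top
        obtain ⟨M, hM⟩ := ENNReal.exists_nat_gt h8
        exact le_iSup_of_le M (by rw [min_eq_left hM.le])
      · exact iSup_le fun M => min_le_left _ _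
    · intro M
      exact (measurable_kk 4 z).min measurable_const
    · intro M N hMN w
      exact min_le_min_left _ (by exact_mod_cast hMN)
  rw [h7]
  exact iSup_le fun M => hM M z hz

lemma V_const {z : ℝ} (hz : z ∈ Kg) : V z = ENNReal.ofReal (c1 / 2) := by
  have hne : ∀ z ∈ Kg, V z ≠ ⊤ := fun z hz => ne_top_of_le_ne_top BB_ne_top (V_le hz)
  have hstep : ∀ z ∈ Kg, (V (gr z)).toReal - c1 / 2 = 3 * ((V z).toReal - c1 / 2) := by
    intro z hz
    have h1 := congrArg ENNReal.toReal (V_eq (Kg_sub hz) (Kg_sub (gr_mem_Kg hz)))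
    rw [ENNReal.toReal_mul, ENNReal.toReal_add ENNReal.ofReal_ne_top (hne _ (gr_mem_Kg hz)),
      ENNReal.toReal_ofReal c1_nonneg] at h1
    simp at h1
    linarith
  have hiter : ∀ (n : ℕ), ∀ z ∈ Kg, ∃ y ∈ Kg,
      (V y).toReal - c1 / 2 = 3 ^ n * ((V z).toReal - c1 / 2) := by
    intro n
    induction n with
    | zero => intro z hz; exact ⟨z, hz, by simp⟩
    | succ n ih =>
      intro z hz
      obtain ⟨y, hy, h⟩ := ih (gr z) (gr_mem_Kg hz)
      refine ⟨y, hy, ?_⟩
      rw [h, hstep z hz]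
      ring
  have hbound : ∀ y ∈ Kg, |(V y).toReal - c1 / 2| ≤ BB.toReal + c1 := by
    intro y hy
    have h1 : (V y).toReal ≤ BB.toReal := ENNReal.toReal_mono BB_ne_top (V_le hy)
    have h2 : 0 ≤ (V y).toReal := ENNReal.toReal_nonneg
    have h3 : 0 ≤ BB.toReal := ENNReal.toReal_nonneg
    have h4 := c1_nonneg
    rw [abs_le]
    constructor <;> linarith
  have hzero : (V z).toReal - c1 / 2 = 0 := by
    by_contra hcon
    have hpos : 0 < |(V z).toReal - c1 / 2| := abs_pos.2 hcon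
    obtain ⟨n, hn⟩ := pow_unbounded_of_one_lt ((BB.toReal + c1) / |(V z).toReal - c1 / 2|)
      (show (1 : ℝ) < 3 by norm_num)
    obtain ⟨y, hy, h⟩ := hiter n z hz
    have h1 := hbound y hy
    rw [h, abs_mul, abs_of_pos (by positivity : (0 : ℝ) < 3 ^ n)] at h1
    rw [div_lt_iff₀ hpos] at hn
    linarith
  have h2 : (V z).toReal = c1 / 2 := by linarith
  rw [← h2, ENNReal.ofReal_toReal (hne z hz)]

end Pool.Agent.H15.GJ
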