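import Mathlib
import Pool.Agent.H15.GJ.Potential

/-!
# The equilibrium measure of the Julia set
-/

namespace Pool.Agent.H15.GJ

open Set Pool.Agent.H12.GJ MeasureTheory Filter Topology ENNReal Polynomial Pool.Agent.H15.Pot

lemma chi_mem_K0 {y : ℝ} (hy : y ∈ Kg) (i : Fin 3) : chi i y ∈ K0 := by
  show hr (chi i y) ∈ Kg
  rw [hr_chi (Kg_sub hy)]
  exact hy

lemma measurableSet_Kg : MeasurableSet Kg := by
  have h : Kg = ⋂ n : ℕ, (gr^[n]) ⁻¹' Icc (-19 / 10 : ℝ) (3 / 2) := by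
    ext x; simp [Kg]
  rw [h]
  exact MeasurableSet.iInter fun n => ((continuous_gr.iterate n).measurable measurableSet_Icc)

lemma measurableSet_K0 : MeasurableSet K0 := continuous_hr.measurable measurableSet_Kg

lemma m0_ae_K0 : ∀ᵐ x ∂m0, x ∈ K0 :=
  m0_ae measurableSet_K0 fun i y hy => chi_mem_K0 hy i

lemma K0_sub {x : ℝ} (hx : x ∈ K0) : x ∈ Icc (-2 : ℝ) 2 := by
  have h := prod_chi (Kg_sub hx) x
  rw [sub_self, zero_div] at h
  rcases mul_eq_zero.1 h with h | h
  · rcases mul_eq_zero.1 h with h | h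
    · rw [sub_eq_zero.1 h]; exact r_mem _ _
    · rw [sub_eq_zero.1 h]; exact r_mem _ _
  · rw [sub_eq_zero.1 h]; exact r_mem _ _

lemma isBounded_image : Bornology.IsBounded (Complex.ofReal '' K0) := by
  rw [isBounded_iff_forall_norm_le]
  refine ⟨2, ?_⟩
  rintro _ ⟨x, hx, rfl⟩
  have := K0_sub hx
  rw [Complex.norm_real, Real.norm_eq_abs, abs_le]
  exact this

section

variable (hJS : JS = Complex.ofReal '' K0)
include hJS

lemma dist_le {x y : ℝ} (hx : x ∈ K0) (hy : y ∈ K0) : |x - y| ≤ Metric.diam JS := by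
  have hb : Bornology.IsBounded JS := by rw [hJS]; exact isBounded_image
  have hx' : (x : ℂ) ∈ JS := by rw [hJS]; exact ⟨x, hx, rfl⟩
  have hy' : (y : ℂ) ∈ JS := by rw [hJS]; exact ⟨y, hy, rfl⟩
  have := Metric.dist_le_diam_of_mem hb hx' hy'
  rw [dist_eq_norm, ← Complex.ofReal_sub, Complex.norm_real, Real.norm_eq_abs] at this
  exact this

omit hJS in
lemma diam_pos : 0 < Metric.diam JS + 1 := by
  have := Metric.diam_nonneg (s := JS)
  linarith

lemma log_nonneg_K0 {x y : ℝ} (hx : x ∈ K0) (hy : y ∈ K0) :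
    0 ≤ Real.log ((Metric.diam JS + 1) / |x - y|) := by
  rcases eq_or_ne (x - y) 0 with h | h
  · rw [h]; simp
  · apply Real.log_nonneg
    rw [le_div_iff₀ (abs_pos.2 h), one_mul]
    have := dist_le hJS hx hy
    linarith

/-- The value of the potential. -/
noncomputable def AA : ℝ := 3 * Real.log (Metric.diam JS + 1) + Real.log (17 / 20) - Real.log 4

omit hJS in
lemma integrable_log {y : ℝ} (hy : y ∈ Kg) :
    Integrable (fun w => Real.log (4 / |y - w|)) m ∧
      ∫ w, Real.log (4 / |y - w|) ∂m = c1 / 2 := by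
  have hmeas : Measurable fun w => Real.log (4 / |y - w|) :=
    Real.measurable_log.comp (measurable_const.div ((measurable_const.sub measurable_id).abs))
  have hnn : ∀ᵐ w ∂m, 0 ≤ Real.log (4 / |y - w|) := by
    filter_upwards [m_ae_I] with w hw using log_nonneg_of_mem (Kg_sub hy) hw
  have hV := V_const hy
  constructor
  · refine ⟨hmeas.aestronglyMeasurable, ?_⟩
    rw [hasFiniteIntegral_iff_ofReal hnn]
    show V y < ⊤
    rw [hV]
    exact ENNReal.ofReal_lt_top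
  · rw [integral_eq_lintegral_of_nonneg_ae hnn hmeas.aestronglyMeasurable]
    show (V y).toReal = c1 / 2
    rw [hV, ENNReal.toReal_ofReal]
    have := c1_nonneg
    linarith

lemma pot0 {z : ℝ} (hz : z ∈ K0) :
    ∫⁻ x, kk (Metric.diam JS + 1) z x ∂m0 = (3 : ℝ≥0∞)⁻¹ * ENNReal.ofReal (AA + c1 / 2) := by
  rw [lintegral_m0 (measurable_kk _ z), ← lintegral_finsetSum]
  · congr 1
    obtain ⟨hint, hval⟩ := integrable_log (y := hr z) hz
    have h1 : ∫⁻ w, ∑ i : Fin 3, kk (Metric.diam JS + 1) z (chi i w) ∂m =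
        ∫⁻ w, ENNReal.ofReal (AA + Real.log (4 / |hr z - w|)) ∂m := by
      refine lintegral_congr_ae ?_
      filter_upwards [m_ae, ae_ne (hr z)] with w hw hne
      unfold kk AA
      rw [← sum_log_chi diam_pos (Kg_sub hw) hne, ENNReal.ofReal_sum_of_nonneg]
      intro i _
      exact log_nonneg_K0 hJS hz (chi_mem_K0 hw i)
    rw [h1, ← ofReal_integral_eq_lintegral_ofReal]
    · congr 1
      rw [integral_add (integrable_const _) hint, hval]
      simp
    · exact (integrable_const _).add hint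
    · filter_upwards [m_ae, ae_ne (hr z)] with w hw hne
      unfold AA
      show 0 ≤ _
      rw [← sum_log_chi diam_pos (Kg_sub hw) hne]
      exact Finset.sum_nonneg fun i _ => log_nonneg_K0 hJS hz (chi_mem_K0 hw i)
  · intro i _
    exact (measurable_kk _ z).comp (continuous_chi i).measurable

/-- The equilibrium measure, on the complex plane. -/
noncomputable def mu : Measure ℂ := m0.map Complex.ofReal

omit hJS in
lemma measurable_ofReal : Measurable Complex.ofReal := Complex.continuous_ofReal.measurable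

instance : IsProbabilityMeasure mu := by
  unfold mu
  exact Measure.isProbabilityMeasure_map measurable_ofReal.aemeasurable

instance : NullSingletonClass mu := by
  constructor
  intro z
  unfold mu
  rw [Measure.map_apply measurable_ofReal (measurableSet_singleton z)]
  apply Set.Subsingleton.measure_zero
  intro x hx y hy
  have h1 : (x : ℂ) = z := hx
  have h2 : (y : ℂ) = z := hy
  exact Complex.ofReal_injective (h1.trans h2.symm)

lemma mu_compl : mu JSᶜ = 0 := by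
  have hm : MeasurableSet JS := isClosed_frontier.measurableSet
  unfold mu
  rw [Measure.map_apply measurable_ofReal hm.compl]
  refine measure_mono_null (t := K0ᶜ) ?_ m0_ae_K0
  intro x hx hxK
  apply hx
  rw [hJS]
  exact ⟨x, hxK, rfl⟩

lemma pot_mu {z : ℂ} (hz : z ∈ JS) :
    ∫⁻ w, ker JS z w ∂mu = (3 : ℝ≥0∞)⁻¹ * ENNReal.ofReal (AA + c1 / 2) := by
  rw [hJS] at hz
  obtain ⟨x, hx, rfl⟩ := hz
  have hmeas : Measurable fun w : ℂ => ker JS x w := by
    unfold Pot.ker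
    exact (Real.measurable_log.comp (measurable_const.div
      ((measurable_const.sub measurable_id).norm))).ennreal_ofReal
  unfold mu
  rw [lintegral_map hmeas measurable_ofReal, ← pot0 hJS hx]
  refine lintegral_congr fun y => ?_
  unfold Pot.ker kk
  rw [← Complex.ofReal_sub, Complex.norm_real, Real.norm_eq_abs]

lemma energy_mu : ∫⁻ z, ∫⁻ w, ker JS z w ∂mu ∂mu =
    (3 : ℝ≥0∞)⁻¹ * ENNReal.ofReal (AA + c1 / 2) := by
  have h1 : ∀ᵐ z ∂mu, z ∈ JS := mu_compl hJS
  have h2 : ∫⁻ z, ∫⁻ w, ker JS z w ∂mu ∂mu =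
      ∫⁻ _, ((3 : ℝ≥0∞)⁻¹ * ENNReal.ofReal (AA + c1 / 2)) ∂mu := by
    refine lintegral_congr_ae ?_
    filter_upwards [h1] with z hz using pot_mu hJS hz
  rw [h2]
  simp

theorem exists_meas_of : ∃ (m0 m : Measure ℝ), IsProbabilityMeasure m0 ∧ IsProbabilityMeasure m ∧
    (∀ᵐ x ∂m0, x ∈ Set.Icc (-2 : ℝ) 2) ∧ (∀ᵐ x ∂m, x ∈ Set.Icc (-19 / 10 : ℝ) (3 / 2)) ∧
    (∀ q : ℝ[X], ∫ x, q.eval (hr x) ∂m0 = ∫ y, q.eval y ∂m) ∧
    (∀ q : ℝ[X], ∫ x, x * q.eval (hr x) ∂m0 = 0) ∧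
    (∀ q : ℝ[X], ∫ x, (x ^ 2 - 2) * q.eval (hr x) ∂m0 = 0) ∧
    (∀ q : ℝ[X], ∫ x, q.eval (gr x) ∂m = ∫ y, q.eval y ∂m) ∧
    (∀ q : ℝ[X], ∫ x, x * q.eval (gr x) ∂m = 0) ∧
    (∀ q : ℝ[X], ∫ x, (x ^ 2 - 2) * q.eval (gr x) ∂m = 0) ∧
    NullSingletonClass (m0.map Complex.ofReal) ∧
    (m0.map Complex.ofReal) JSᶜ = 0 ∧
    (∫⁻ z, ∫⁻ w, ENNReal.ofReal (Real.log ((Metric.diam JS + 1) / ‖z - w‖))
      ∂(m0.map Complex.ofReal) ∂(m0.map Complex.ofReal)) < ⊤ ∧
    (∀ ν : Measure ℂ, IsProbabilityMeasure ν → NullSingletonClass ν → ν JSᶜ = 0 →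
      (∫⁻ z, ∫⁻ w, ENNReal.ofReal (Real.log ((Metric.diam JS + 1) / ‖z - w‖))
        ∂(m0.map Complex.ofReal) ∂(m0.map Complex.ofReal)) ≤
      (∫⁻ z, ∫⁻ w, ENNReal.ofReal (Real.log ((Metric.diam JS + 1) / ‖z - w‖)) ∂ν ∂ν)) := by
  have hV : (3 : ℝ≥0∞)⁻¹ * ENNReal.ofReal (AA + c1 / 2) ≠ ⊤ :=
    ENNReal.mul_ne_top (by simp) ENNReal.ofReal_ne_top
  refine ⟨m0, m, inferInstance, inferInstance, ?_, m_ae_I, pull_one0, pull_x0, pull_sq0, pull_one,
    pull_x, pull_sq, ?_, mu_compl hJS, ?_, ?_⟩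
  · filter_upwards [m0_ae_K0] with x hx using K0_sub hx
  · exact (inferInstance : NullSingletonClass mu)
  · have h := energy_mu hJS
    unfold Pot.ker mu at h
    rw [h]
    exact lt_top_iff_ne_top.2 hV
  · intro ν hν hνa hν0
    have hb : Bornology.IsBounded JS := by rw [hJS]; exact isBounded_image
    have hre : JS ⊆ {z : ℂ | z.im = 0} := by
      rw [hJS]; rintro _ ⟨x, -, rfl⟩; exact Complex.ofReal_im x
    have h := energy_min hb hre mu (mu_compl hJS) hV (fun z hz => (pot_mu hJS hz).ge)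
      (energy_mu hJS).le ν hν0
    exact h

end

end Pool.Agent.H15.GJ
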