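import Mathlib
import Pool.Agent.H15.GJ.Meas
import Pool.Agent.H91.GJ.Dyn

/-!
# The equilibrium measure of the Julia set, final form
-/

namespace Pool.Agent.H15.GJ

open Set Pool.Agent.H12.GJ MeasureTheory Filter Topology ENNReal Polynomial

theorem exists_meas : ∃ (m0 m : Measure ℝ), IsProbabilityMeasure m0 ∧ IsProbabilityMeasure m ∧
    (∀ᵐ x ∂m0, x ∈ Set.Icc (-2 : ℝ) 2) ∧ (∀ᵐ x ∂m, x ∈ Set.Icc (-19 / 10 : ℝ) (3 / 2)) ∧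
    (∀ q : ℝ[X], ∫ x, q.eval (hr x) ∂m0 = ∫ y, q.eval y ∂m) ∧
    (∀ q : ℝ[X], ∫ x, x * q.eval (hr x) ∂m0 = 0) ∧
    (∀ q : ℝ[X], ∫ x, (x ^ 2 - 2) * q.eval (hr x) ∂m0 = 0) ∧
    (∀ q : ℝ[X], ∫ x, q.eval (gr x) ∂m = ∫ y, q.eval y ∂m) ∧
    (∀ q : ℝ[X], ∫ x, x * q.eval (gr x) ∂m = 0) ∧
    (∀ q : ℝ[X], ∫ x, (x ^ 2 - 2) * q.eval (gr x) ∂m = 0) ∧
    NullSingletonClass (m0.map Complex.ofReal) ∧
    (m0.map Complex.ofReal) JSᶜ = 0 ∧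
    (∫⁻ z, ∫⁻ w, ENNReal.ofReal (Real.log ((Metric.diam JS + 1) / ‖z - w‖))
      ∂(m0.map Complex.ofReal) ∂(m0.map Complex.ofReal)) < ⊤ ∧
    (∀ ν : Measure ℂ, IsProbabilityMeasure ν → NullSingletonClass ν → ν JSᶜ = 0 →
      (∫⁻ z, ∫⁻ w, ENNReal.ofReal (Real.log ((Metric.diam JS + 1) / ‖z - w‖))
        ∂(m0.map Complex.ofReal) ∂(m0.map Complex.ofReal)) ≤
      (∫⁻ z, ∫⁻ w, ENNReal.ofReal (Real.log ((Metric.diam JS + 1) / ‖z - w‖)) ∂ν ∂ν)) :=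
  exists_meas_of JS_eq

end Pool.Agent.H15.GJ
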